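import Pool.Agent.Helper68.QS.St1

/-!
# Project QD (MP_d112a4_gt), module INP: the coefficient of an equivariant map is invariant
-/

set_option autoImplicit false

namespace Pool.Agent.Helper42.QS

open MeasureTheory Set Filter Topology Complex
open scoped ContDiff ComplexConjugate ENNReal
open Pool.Agent.Helper68.QS Pool.Agent.Helper68.QC
open Pool.Agent.Helper61.QE (D Dx rf SU Fu FD Ab sy nuT muT syX syY Kap En Et)

/-- zeros of the derivative of a nonconstant holomorphic function -/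
private lemma crit_countable (g : ℂ → ℂ) (hg : DifferentiableOn ℂ g D)
    (hne : ∃ x ∈ D, deriv g x ≠ 0) : ({x | x ∈ D ∧ deriv g x = 0} : Set ℂ).Countable := by
  obtain ⟨x, hx, hx'⟩ := hne
  have h1 : AnalyticOnNhd ℂ (deriv g) D :=
    (hg.analyticOnNhd Metric.isOpen_ball).deriv
  have hconn : IsConnected D :=
    (convex_ball (0 : ℂ) 1).isConnected ⟨0, by simp⟩
  have h2 := h1.preimage_zero_mem_codiscreteWithin hx' hx hconn
  have h3 : ({x | x ∈ D ∧ deriv g x = 0} : Set ℂ) = ((deriv g) ⁻¹' {0}ᶜ)ᶜ ∩ D := by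
    ext y
    simp [and_comm]
  rw [h3]
  have : DiscreteTopology ↑(((deriv g) ⁻¹' {0}ᶜ)ᶜ ∩ D) := isDiscrete_iff_discreteTopology.mp
    <| isDiscrete_of_codiscreteWithin ((compl_compl ((deriv g) ⁻¹' {0}ᶜ)).symm ▸ h2)
  exact TopologicalSpace.separableSpace_iff_countable.1 inferInstance

theorem pINP (hEX : Pool.Agent.Helper68.QC.StEX) (hFAC : Pool.Agent.Helper68.QC.StFAC)
    (hCVM : Pool.Agent.Helper68.QC.StCVM) (hCHR : Pool.Agent.Helper68.QC.StCHR)
    (hUNW : Pool.Agent.Helper68.QC.StUNW) (hPRW : Pool.Agent.Helper68.QC.StPRW)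
    (hSUB : Pool.Agent.Helper61.QE.StSUB) (hEDD : Pool.Agent.Helper61.QE.StEDD)
    (hCOE : Pool.Agent.Helper61.QE.StCOE) : Pool.Agent.Helper68.QS.StINP := by
  intro k μ₀ Ψ A c hk0 hk1 hBel hSol hne hA heq
  obtain ⟨-, hder, hdiff, hden0, hmod, -, hgrp, -, -, hinv⟩ := hSUB
  have hDo : IsOpen D := Metric.isOpen_ball
  have hDm : MeasurableSet D := Metric.isOpen_ball.measurableSet
  have memD : ∀ z : ℂ, z ∈ D ↔ ‖z‖ < 1 := fun z => by simp
  have hBel0 : Bel k (D.indicator μ₀) := by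
    refine ⟨hBel.meas.indicator hDm, fun z => ?_⟩
    by_cases hz : z ∈ D
    · rw [indicator_of_mem hz]; exact hBel.le z
    · rw [indicator_of_notMem hz]; simpa using hk0
  have hout : ∀ z, 1 ≤ ‖z‖ → D.indicator μ₀ z = 0 := by
    intro z hz
    rw [indicator_of_notMem]
    rw [memD]
    exact not_lt.2 hz
  have hKap : Kap (1 : Unit →* SL) k (D.indicator μ₀) := by
    refine ⟨hBel0, hout, fun γ => ae_of_all _ fun z => ?_⟩
    simp [mob, den]
  have hC := hCOE Unit 1 (fun _ => 0) (D.indicator μ₀) k (fun γ => by simp [SU])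
    ⟨differentiableOn_const 0, fun γ => ⟨0, fun z _ => by simp⟩⟩ hk0 hKap
  obtain ⟨-, -, hm1, -, hm3, hm4⟩ := hC
  have hm : ∀ z ∈ D, syY (D.indicator μ₀) z = μ₀ z := by
    intro z hz
    rw [hm4 z hz 0]
    simp only [Pool.Agent.Helper61.QE.muT, zero_mul, add_zero]
    exact indicator_of_mem hz _
  generalize hmm : syY (D.indicator μ₀) = m at hm1 hm3 hm4 hm
  obtain ⟨hfD, -, -, -, -, -, -⟩ := hEDD k hk1 m hm1 hm3
  obtain ⟨a, b, hW, hab⟩ := hSol
  have hSol' : Sol m D Ψ := by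
    refine ⟨a, b, hW, ?_⟩
    filter_upwards [hab, ae_restrict_mem hDm] with z hz hzD
    rw [hz, hm z hzD]
  have hg := hFAC k hk1 m hm1 D Ψ hDo hSol'
  rw [hfD] at hg
  set f := nq m with hf
  set g : ℂ → ℂ := fun ζ => Ψ (f.symm ζ) with hgdef
  have hgf : ∀ z, g (f z) = Ψ z := fun z => by rw [hgdef]; simp
  have hmaps : ∀ z ∈ D, f z ∈ D := by
    intro z hz
    have h1 : f z ∈ f '' D := ⟨z, hz, rfl⟩
    rw [hfD] at h1
    exact h1
  have hcrit : ∃ x ∈ D, deriv g x ≠ 0 := by
    by_contra hcon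
    push Not at hcon
    obtain ⟨z, hz, w, hw, hzw⟩ := hne
    apply hzw
    have h1 : g (f z) = g (f w) := by
      refine hDo.is_const_of_deriv_eq_zero (convex_ball (0 : ℂ) 1).isPreconnected hg ?_
        (hmaps z hz) (hmaps w hw)
      intro x hx
      exact hcon x hx
    rw [hgf, hgf] at h1
    exact h1
  have hZ := crit_countable g hg hcrit
  obtain ⟨a₁, b₁, hW1, hb1, -, ha1, -⟩ := hCVM k hk1 m hm1
  have hgC : ContDiffOn ℝ ∞ g D := by
    have : ContDiffOn ℂ ∞ g D := hg.contDiffOn hDo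
    exact this.restrict_scalars ℝ
  have hW2 := hCHR D D f a₁ b₁ g hDo hDo (hW1.mono (subset_univ D)) hmaps hgC
  have hU1 := (hUNW D Ψ (fun z => g (f z)) a b _ _ hDo (fun z _ => (hgf z).symm) hW hW2).1
  -- `a ≠ 0` almost everywhere
  have hfZ : ({z | z ∈ D ∧ deriv g (f z) = 0} : Set ℂ).Countable := by
    have h1 : ({z | z ∈ D ∧ deriv g (f z) = 0} : Set ℂ) ⊆ f ⁻¹' {x | x ∈ D ∧ deriv g x = 0} :=
      fun z hz => ⟨hmaps z hz.1, hz.2⟩
    exact (hZ.preimage f.injective).mono h1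
  have ha0 : ∀ᵐ z ∂(volume.restrict D), a z ≠ 0 := by
    have h1 : ∀ᵐ z ∂(volume.restrict D), z ∉ ({z | z ∈ D ∧ deriv g (f z) = 0} : Set ℂ) :=
      ae_restrict_of_ae (measure_eq_zero_iff_ae_notMem.1 (hfZ.measure_zero volume))
    filter_upwards [h1, hU1, ae_restrict_mem hDm] with z h2 h3 h4
    have h5 : DifferentiableAt ℂ g (f z) := hg.differentiableAt (hDo.mem_nhds (hmaps z h4))
    rw [h3, dz_holo h5, dzb_holo h5, zero_mul, add_zero]
    refine mul_ne_zero ?_ (ha1 z)
    intro h6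
    exact h2 ⟨h4, h6⟩
  -- the Moebius map
  have hdenD : ∀ B : SL, SU B → ∀ z ∈ D, den B z ≠ 0 := fun B hB z hz =>
    hden0 B hB z ((memD z).1 hz).le
  have hmobD : ∀ B : SL, SU B → ∀ z ∈ D, mob B z ∈ D := by
    intro B hB z hz
    have h1 := hmod B hB z (hdenD B hB z hz)
    have h2 : 0 < 1 - ‖z‖ ^ 2 := by
      have := (memD z).1 hz
      have h3 := norm_nonneg z
      nlinarith
    rw [← h1] at h2
    have h4 : 0 < 1 - ‖mob B z‖ ^ 2 := by
      by_contra h5
      have h6 : 0 ≤ ‖den B z‖ ^ 2 := by positivity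
      nlinarith
    rw [memD]
    have h7 := norm_nonneg (mob B z)
    nlinarith
  have hderD : ∀ B : SL, SU B → ∀ z ∈ D, HasDerivAt (mob B) ((den B z ^ 2)⁻¹) z :=
    fun B hB z hz => hder B z (hdenD B hB z hz)
  have hW3 := hPRW D D Ψ a b (mob A) hDo hDo
    (fun z hz => (hderD A hA z hz).differentiableAt.differentiableWithinAt)
    (fun z hz w hw hzw => by
      have h1 := hdiff A z w (hdenD A hA z hz) (hdenD A hA w hw)
      rw [hzw, sub_self] at h1
      have h2 := (div_eq_zero_iff.1 h1.symm).resolve_right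
        (mul_ne_zero (hdenD A hA z hz) (hdenD A hA w hw))
      exact sub_eq_zero.1 h2)
    (fun z hz => hmobD A hA z hz)
    (fun z hz => by
      rw [(hderD A hA z hz).deriv]
      exact inv_ne_zero (pow_ne_zero 2 (hdenD A hA z hz))) hW
  have hW4 := hCHR D univ Ψ a b (fun w => w + c) hDo isOpen_univ hW (fun z _ => mem_univ _)
    ((contDiff_id.add contDiff_const).contDiffOn)
  have hdF : ∀ w : ℂ, dz (fun w => w + c) w = 1 ∧ dzb (fun w => w + c) w = 0 := by
    intro w
    have h1 : HasDerivAt (fun w : ℂ => w + c) 1 w := (hasDerivAt_id w).add_const c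
    exact ⟨by rw [dz_holo h1.differentiableAt, h1.deriv], dzb_holo h1.differentiableAt⟩
  obtain ⟨hU2, hU3⟩ := hUNW D (fun z => Ψ (mob A z)) (fun z => (fun w => w + c) (Ψ z)) _ _ _ _ hDo
    (fun z hz => heq z hz) hW3 hW4
  -- the equation at `mob A z`
  have hN : ∀ᵐ z ∂(volume.restrict D), b (mob A z) = μ₀ (mob A z) * a (mob A z) := by
    have hAi : SU A⁻¹ := (hgrp A A hA hA).2.1
    have h1 : volume ({z | z ∈ D ∧ ¬ (b z = μ₀ z * a z)} : Set ℂ) = 0 := by
      have h2 := (ae_restrict_iff' hDm).1 hab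
      rw [ae_iff] at h2
      convert h2 using 2
      ext z
      simp
    have h2 : volume (mob A⁻¹ '' ({z | z ∈ D ∧ ¬ (b z = μ₀ z * a z)} : Set ℂ)) = 0 := by
      refine addHaar_image_eq_zero_of_differentiableOn_of_addHaar_eq_zero volume ?_ h1
      intro z hz
      exact ((hderD A⁻¹ hAi z hz.1).differentiableAt.restrictScalars ℝ).differentiableWithinAt
    have h3 := measure_eq_zero_iff_ae_notMem.1 h2
    filter_upwards [ae_restrict_of_ae h3, ae_restrict_mem hDm] with z hz hzD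
    by_contra h4
    exact hz ⟨mob A z, ⟨hmobD A hA z hzD, h4⟩, (hinv A z (hdenD A hA z hzD)).1⟩
  have hkey : ∀ᵐ z ∂(volume.restrict D),
      D.indicator μ₀ (mob A z) * den A z ^ 2 = D.indicator μ₀ z * conj (den A z) ^ 2 := by
    filter_upwards [hU2, hU3, hN, hab, ha0, ae_restrict_mem hDm] with z h1 h2 h3 h4 h5 hz
    rw [indicator_of_mem hz, indicator_of_mem (hmobD A hA z hz)]
    rw [(hderD A hA z hz).deriv] at h1 h2
    rw [(hdF _).1, (hdF _).2, zero_mul, add_zero, one_mul] at h1 h2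
    have hd := hdenD A hA z hz
    have hd' : conj (den A z) ≠ 0 := by
      rwa [Ne, map_eq_zero]
    have ha' : a (mob A z) ≠ 0 := by
      intro h
      rw [h, zero_mul] at h1
      exact h5 h1.symm
    rw [h3, h4, ← h1, map_inv₀, map_pow] at h2
    field_simp at h2
    linear_combination h2
  have hkey' := (ae_restrict_iff' hDm).1 hkey
  filter_upwards [hkey'] with z hz
  by_cases hzD : z ∈ D
  · exact hz hzD
  · rw [indicator_of_notMem hzD, zero_mul]
    by_cases hd : den A z = 0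
    · rw [hd]; ring
    · have h1 := hmod A hA z hd
      have h2 : 1 ≤ ‖z‖ := by
        rw [memD] at hzD
        exact not_lt.1 hzD
      have h3 : D.indicator μ₀ (mob A z) = 0 := by
        apply hout
        by_contra h4
        push Not at h4
        have h5 : 0 < ‖den A z‖ ^ 2 := by positivity
        have h6 : 0 < 1 - ‖mob A z‖ ^ 2 := by
          have h7 := norm_nonneg (mob A z)
          nlinarith
        have h8 : 0 < (1 - ‖mob A z‖ ^ 2) * ‖den A z‖ ^ 2 := mul_pos h6 h5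
        rw [h1] at h8
        nlinarith
      rw [h3, zero_mul]

end Pool.Agent.Helper42.QS
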